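import Pool.Agent.Helper72.K3GoodDefs

/-!
# Edge-maximal connected `K_3`-good graphs: proofs

Main point: in a red-triangle-free colouring of the complete graph on `2 n - 1` vertices without
blue `K_n` the red graph is not bipartite, so by the Andrasfai-Erdos-Sos theorem some vertex has
red degree at most `(4 n - 2) / 5`, hence blue degree at least `2 n - 2 - (4 n - 2) / 5`, which is
at least `n` for `n ≥ 4` and at least `n + 1` for `n ≥ 9`.
-/

namespace Pool.Agent.Helper72.K3Good

open SimpleGraph Finset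

/-! ### Basic facts on `Arrows` -/

section basic

variable {V W U : Type*}

lemma arrows_of_card {F : SimpleGraph V} {G : SimpleGraph W} {N : ℕ} (h : Arrows F G N)
    {T : Type*} [Fintype T] (hN : N ≤ Fintype.card T) (R : SimpleGraph T) :
    F ⊑ R ∨ G ⊑ Rᶜ := by
  classical
  have : Nonempty (Fin N ↪ T) := by
    rw [Function.Embedding.nonempty_iff_card_le]; simpa using hN
  obtain ⟨e⟩ := this
  rcases h (R.comap e) with h1 | h1
  · left
    exact h1.trans ⟨(SimpleGraph.Embedding.comap e R).toCopy⟩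
  · right
    have hc : (R.comap e)ᶜ ⊑ Rᶜ := by
      refine ⟨⟨⟨e, ?_⟩, e.injective⟩⟩
      intro a b hab
      rw [SimpleGraph.compl_adj] at hab ⊢
      exact ⟨fun hh => hab.1 (e.injective hh), fun hh => hab.2 hh⟩
    exact h1.trans hc

lemma arrows_mono {F : SimpleGraph V} {G : SimpleGraph W} {N M : ℕ} (h : Arrows F G N)
    (hNM : N ≤ M) : Arrows F G M := fun R => arrows_of_card h (by simpa using hNM) R

lemma arrows_of_contained {F : SimpleGraph V} {G : SimpleGraph W} {G' : SimpleGraph U} {N : ℕ}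
    (h : Arrows F G N) (hG : G' ⊑ G) : Arrows F G' N := fun R =>
  (h R).imp id (fun h1 => hG.trans h1)

lemma K3_contained_iff {R : SimpleGraph V} : K3 ⊑ R ↔ ¬ R.CliqueFree 3 :=
  (not_cliqueFree_iff_top_isContained 3).symm

/-- a blue clique (red independent set) on `card W` vertices contains every graph on `W`. -/
lemma contained_compl_of_indep [Fintype W] (G : SimpleGraph W) {R : SimpleGraph V}
    {S : Finset V} (hS : R.IsIndepSet S) (hc : Fintype.card W ≤ #S) : G ⊑ Rᶜ := by
  classical
  have : Nonempty (W ↪ S) := by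
    rw [Function.Embedding.nonempty_iff_card_le]; simpa using hc
  obtain ⟨e⟩ := this
  refine ⟨⟨⟨fun w => (e w : V), ?_⟩, ?_⟩⟩
  · intro a b hab
    have hne : (e a : V) ≠ e b := fun hh => hab.ne (e.injective (Subtype.ext hh))
    rw [SimpleGraph.compl_adj]
    exact ⟨hne, hS (e a).2 (e b).2 hne⟩
  · intro a b hab
    exact e.injective (Subtype.ext hab)

/-- in a triangle-free graph, large vertex sets contain independent sets of size `m`. -/
lemma exists_indep (m : ℕ) [DecidableEq V] {R : SimpleGraph V} (hR : R.CliqueFree 3)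
    (T : Finset V) (hT : m * m ≤ #T) : ∃ S ⊆ T, #S = m ∧ R.IsIndepSet S := by
  classical
  induction m generalizing T with
  | zero => exact ⟨∅, by simp, by simp, by simp⟩
  | succ m ih =>
    have hpos : 0 < #T := by
      have : 0 < (m + 1) * (m + 1) := by positivity
      omega
    obtain ⟨v, hv⟩ := Finset.card_pos.mp hpos
    set A := T.filter (R.Adj v) with hA
    by_cases hcA : m + 1 ≤ #A
    · obtain ⟨S, hSA, hSc⟩ := Finset.exists_subset_card_eq hcA
      refine ⟨S, hSA.trans (Finset.filter_subset _ _), hSc, ?_⟩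
      intro a ha b hb hab hadj
      have ha' := (Finset.mem_filter.mp (hSA (Finset.mem_coe.mp ha))).2
      have hb' := (Finset.mem_filter.mp (hSA (Finset.mem_coe.mp hb))).2
      exact (isIndepSet_neighborSet_of_triangleFree R hR v) (by simpa using ha')
        (by simpa using hb') hab hadj
    · push Not at hcA
      have hcard : m * m ≤ #((T.erase v) \ A) := by
        have h1 : #(T.erase v) = #T - 1 := Finset.card_erase_of_mem hv
        have h2 : #(T.erase v) - #A ≤ #((T.erase v) \ A) := Finset.le_card_sdiff _ _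
        have h3 : (m + 1) * (m + 1) = m * m + 2 * m + 1 := by ring
        omega
      obtain ⟨S, hST, hSc, hSi⟩ := ih _ hcard
      have hvS : v ∉ S := fun h => by
        have := hST h
        simp at this
      refine ⟨insert v S, ?_, ?_, ?_⟩
      · intro x hx
        rcases Finset.mem_insert.mp hx with rfl | hx
        · exact hv
        · have := hST hx
          simp only [Finset.mem_sdiff, Finset.mem_erase] at this
          exact this.1.2
      · rw [Finset.card_insert_of_notMem hvS, hSc]
      · rw [Finset.coe_insert]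
        intro a ha b hb hab hadj
        rcases ha with rfl | ha <;> rcases hb with rfl | hb
        · exact hab rfl
        · have := hST (Finset.mem_coe.mp hb)
          simp only [Finset.mem_sdiff, Finset.mem_erase, hA, Finset.mem_filter, not_and] at this
          exact this.2 this.1.2 hadj
        · have := hST (Finset.mem_coe.mp ha)
          simp only [Finset.mem_sdiff, Finset.mem_erase, hA, Finset.mem_filter, not_and] at this
          exact this.2 this.1.2 hadj.symm
        · exact hSi ha hb hab hadj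

lemma exists_arrows [Finite W] (G : SimpleGraph W) : ∃ N, Arrows K3 G N := by
  classical
  cases nonempty_fintype W
  refine ⟨Fintype.card W * Fintype.card W, fun R => ?_⟩
  by_cases hR : R.CliqueFree 3
  · right
    obtain ⟨S, -, hSc, hSi⟩ := exists_indep (Fintype.card W) hR Finset.univ (by simp)
    exact contained_compl_of_indep G hSi hSc.ge
  · left
    exact K3_contained_iff.mpr hR

lemma arrows_ramseyNumber [Finite W] (G : SimpleGraph W) : Arrows K3 G (ramseyNumber K3 G) :=
  Nat.sInf_mem (exists_arrows G)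

lemma ramseyNumber_le_iff [Finite W] (G : SimpleGraph W) (N : ℕ) :
    ramseyNumber K3 G ≤ N ↔ Arrows K3 G N :=
  ⟨fun h => arrows_mono (arrows_ramseyNumber G) h, fun h => Nat.sInf_le h⟩

lemma ramseyNumber_lt_iff [Finite W] (G : SimpleGraph W) (N : ℕ) :
    N < ramseyNumber K3 G ↔ ¬ Arrows K3 G N := by
  rw [← ramseyNumber_le_iff, not_le]

end basic


/-! ### Lower bounds -/

section lower

variable {V W U : Type*}

lemma bip_triangleFree (A B : Type*) : (completeBipartiteGraph A B).CliqueFree 3 := by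
  have hc : (completeBipartiteGraph A B).Colorable 2 := by
    refine ⟨Coloring.mk (fun x => if x.isLeft then (0 : Fin 2) else 1) ?_⟩
    intro a b hab
    rcases a with a | a <;> rcases b with b | b <;> simp at hab ⊢
  exact hc.cliqueFree (by norm_num)

/-- A graph all of whose edges stay on one side. -/
lemma compl_bip_side {A B : Type*} {x y : A ⊕ B} (h : (completeBipartiteGraph A B)ᶜ.Adj x y) :
    x.isLeft = y.isLeft := by
  rcases x with a | a <;> rcases y with b | b <;> simp [SimpleGraph.compl_adj] at h ⊢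

lemma not_arrows_of_bip (G : SimpleGraph W) (a b : ℕ)
    (h : ¬ G ⊑ (completeBipartiteGraph (Fin a) (Fin b))ᶜ) : ¬ Arrows K3 G (a + b) := by
  intro hA
  rcases arrows_of_card hA (T := Fin a ⊕ Fin b) (by simp)
    (completeBipartiteGraph (Fin a) (Fin b)) with h1 | h1
  · exact K3_contained_iff.mp h1 (bip_triangleFree _ _)
  · exact h h1

lemma connected_lower [Fintype W] (G : SimpleGraph W) (hG : G.Connected) :
    ¬ Arrows K3 G (2 * Fintype.card W - 2) := by
  classical
  have := hG.nonempty
  obtain ⟨w0⟩ := hG.nonempty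
  have hpos : 0 < Fintype.card W := Fintype.card_pos
  have h2 : 2 * Fintype.card W - 2 = (Fintype.card W - 1) + (Fintype.card W - 1) := by omega
  rw [h2]
  apply not_arrows_of_bip
  rintro ⟨f⟩
  have hside : ∀ w, (f w0).isLeft = (f w).isLeft := by
    intro w
    obtain ⟨p⟩ := hG.preconnected w0 w
    induction p with
    | nil => rfl
    | cons hadj p ih => exact (compl_bip_side (f.toHom.map_adj hadj)).trans (ih)
  rcases h0 : f w0 with a | a
  · have : ∀ w, ∃ c, f w = Sum.inl c := by
      intro w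
      have := hside w
      rw [h0] at this
      rcases hw : f w with c | c
      · exact ⟨c, rfl⟩
      · rw [hw] at this; simp at this
    choose g hg using this
    have hinj : Function.Injective g := by
      intro x y hxy
      apply f.injective
      show f x = f y
      rw [hg, hg, hxy]
    have := Fintype.card_le_of_injective g hinj
    simp at this
    omega
  · have : ∀ w, ∃ c, f w = Sum.inr c := by
      intro w
      have := hside w
      rw [h0] at this
      rcases hw : f w with c | c
      · rw [hw] at this; simp at this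
      · exact ⟨c, rfl⟩
    choose g hg using this
    have hinj : Function.Injective g := by
      intro x y hxy
      apply f.injective
      show f x = f y
      rw [hg, hg, hxy]
    have := Fintype.card_le_of_injective g hinj
    simp at this
    omega

/-- if all cliques have order larger than `c` then the union of cliques, on `h` vertices, is not
forced in blue on `h - 1 + c` vertices. -/
lemma clique_lower {ι : Type*} [Fintype ι] [Nonempty ι] (s : ι → ℕ) (c : ℕ)
    (hs : ∀ i, c < s i) : ¬ Arrows K3 (cliqueUnion s) (c + (∑ i, s i - 1)) := by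
  classical
  apply not_arrows_of_bip
  rintro ⟨f⟩
  have hcard : Fintype.card (Σ i, Fin (s i)) = ∑ i, s i := by simp
  have hside : ∀ x y : (Σ i, Fin (s i)), x.1 = y.1 → (f x).isLeft = (f y).isLeft := by
    intro x y hxy
    by_cases h : x = y
    · rw [h]
    · exact compl_bip_side (f.toHom.map_adj (show (cliqueUnion s).Adj x y from ⟨h, hxy⟩))
  have hright : ∀ x, ∃ d, f x = Sum.inr d := by
    rintro ⟨i, a⟩
    by_contra hcon
    have hleft : ∀ b : Fin (s i), ∃ d, f ⟨i, b⟩ = Sum.inl d := by
      intro b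
      have h1 := hside ⟨i, a⟩ ⟨i, b⟩ rfl
      rcases ha : f ⟨i, a⟩ with d | d
      · rcases hb : f ⟨i, b⟩ with e | e
        · exact ⟨e, rfl⟩
        · rw [ha, hb] at h1; simp at h1
      · exact absurd ⟨d, ha⟩ hcon
    choose g hg using hleft
    have hinj : Function.Injective g := by
      intro x y hxy
      have : f ⟨i, x⟩ = f ⟨i, y⟩ := by rw [hg, hg, hxy]
      have := f.injective this
      simpa using this
    have := Fintype.card_le_of_injective g hinj
    simp at this
    have := hs i
    omega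
  choose g hg using hright
  have hinj : Function.Injective g := by
    intro x y hxy
    apply f.injective
    show f x = f y
    rw [hg, hg, hxy]
  have h1 := Fintype.card_le_of_injective g hinj
  rw [hcard] at h1
  simp only [Fintype.card_fin] at h1
  obtain ⟨i0⟩ := (inferInstance : Nonempty ι)
  have h2 : s i0 ≤ ∑ i, s i := Finset.single_le_sum (fun _ _ => Nat.zero_le _) (Finset.mem_univ i0)
  have := hs i0
  omega

/-- The cyclic graph `i ~ i + 1` on `Fin n`. -/
def cyc (n : ℕ) [NeZero n] : SimpleGraph (Fin n) where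
  Adj i j := i ≠ j ∧ (j = i + 1 ∨ i = j + 1)
  symm := ⟨fun _ _ h => ⟨h.1.symm, h.2.symm⟩⟩
  loopless := ⟨fun _ h => h.1 rfl⟩

lemma cyc5_aux : ∀ a b c : Fin 5, (a ≠ b ∧ (b = a + 1 ∨ a = b + 1)) →
    (b ≠ c ∧ (c = b + 1 ∨ b = c + 1)) → (a ≠ c ∧ (c = a + 1 ∨ a = c + 1)) → False := by decide

lemma cyc5_aux' : ∀ a b c : Fin 5, a ≠ b → b ≠ c → a ≠ c → ¬ (a ≠ b ∧ (b = a + 1 ∨ a = b + 1)) →
    ¬ (b ≠ c ∧ (c = b + 1 ∨ b = c + 1)) → ¬ (a ≠ c ∧ (c = a + 1 ∨ a = c + 1)) → False := by decide

/-- `r(K_3, K_3) > 5`. -/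
lemma not_arrows_K3_K3 : ¬ Arrows K3 K3 5 := by
  intro h
  rcases h (cyc 5) with ⟨⟨f⟩⟩ | ⟨⟨f⟩⟩
  · have h01 : (cyc 5).Adj (f 0) (f 1) := f.toHom.map_adj (by simp)
    have h12 : (cyc 5).Adj (f 1) (f 2) := f.toHom.map_adj (by simp)
    have h02 : (cyc 5).Adj (f 0) (f 2) := f.toHom.map_adj (by simp)
    exact cyc5_aux _ _ _ h01 h12 h02
  · have h01 : (cyc 5)ᶜ.Adj (f 0) (f 1) := f.toHom.map_adj (by simp)
    have h12 : (cyc 5)ᶜ.Adj (f 1) (f 2) := f.toHom.map_adj (by simp)
    have h02 : (cyc 5)ᶜ.Adj (f 0) (f 2) := f.toHom.map_adj (by simp)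
    rw [SimpleGraph.compl_adj] at h01 h12 h02
    exact cyc5_aux' _ _ _ h01.1 h12.1 h02.1 h01.2 h12.2 h02.2

lemma cyc7_aux : ∀ a b c : Fin 7, (a ≠ b ∧ (b = a + 1 ∨ a = b + 1)) →
    (b ≠ c ∧ (c = b + 1 ∨ b = c + 1)) → (a ≠ c ∧ (c = a + 1 ∨ a = c + 1)) → False := by decide

lemma cyc7_aux' : ∀ a b c d : Fin 7, a ≠ b → b ≠ c → a ≠ c → a ≠ d → b ≠ d → c ≠ d →
    ¬ (a ≠ b ∧ (b = a + 1 ∨ a = b + 1)) →
    ¬ (b ≠ c ∧ (c = b + 1 ∨ b = c + 1)) → ¬ (a ≠ c ∧ (c = a + 1 ∨ a = c + 1)) →
    ¬ (a ≠ d ∧ (d = a + 1 ∨ a = d + 1)) →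
    ¬ (b ≠ d ∧ (d = b + 1 ∨ b = d + 1)) → ¬ (c ≠ d ∧ (d = c + 1 ∨ c = d + 1)) → False := by
  decide +kernel

/-- `r(K_3, K_4) > 7`. -/
lemma not_arrows_K3_K4 : ¬ Arrows K3 (completeGraph (Fin 4)) 7 := by
  intro h
  rcases h (cyc 7) with ⟨⟨f⟩⟩ | ⟨⟨f⟩⟩
  · have h01 : (cyc 7).Adj (f 0) (f 1) := f.toHom.map_adj (by simp)
    have h12 : (cyc 7).Adj (f 1) (f 2) := f.toHom.map_adj (by simp)
    have h02 : (cyc 7).Adj (f 0) (f 2) := f.toHom.map_adj (by simp)
    exact cyc7_aux _ _ _ h01 h12 h02
  · have h01 : (cyc 7)ᶜ.Adj (f 0) (f 1) := f.toHom.map_adj (by simp)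
    have h12 : (cyc 7)ᶜ.Adj (f 1) (f 2) := f.toHom.map_adj (by simp)
    have h02 : (cyc 7)ᶜ.Adj (f 0) (f 2) := f.toHom.map_adj (by simp)
    have h03 : (cyc 7)ᶜ.Adj (f 0) (f 3) := f.toHom.map_adj (by simp)
    have h13 : (cyc 7)ᶜ.Adj (f 1) (f 3) := f.toHom.map_adj (by simp)
    have h23 : (cyc 7)ᶜ.Adj (f 2) (f 3) := f.toHom.map_adj (by simp)
    rw [SimpleGraph.compl_adj] at h01 h12 h02 h03 h13 h23
    exact cyc7_aux' _ _ _ _ h01.1 h12.1 h02.1 h03.1 h13.1 h23.1 h01.2 h12.2 h02.2 h03.2 h13.2 h23.2

end lower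


/-! ### Upper bounds -/

section upper

variable {V W U : Type*}

/-- The path on three vertices, with middle vertex `1`. -/
def P3 : SimpleGraph (Fin 3) where
  Adj i j := i ≠ j ∧ (i = 1 ∨ j = 1)
  symm := ⟨fun _ _ h => ⟨h.1.symm, h.2.symm⟩⟩
  loopless := ⟨fun _ h => h.1 rfl⟩

/-- The join of one vertex with `H`. -/
def cone (H : SimpleGraph W) : SimpleGraph (Option W) where
  Adj x y := x ≠ y ∧ ∀ a ∈ x, ∀ b ∈ y, H.Adj a b
  symm := ⟨fun _ _ h => ⟨h.1.symm, fun a ha b hb => (h.2 b hb a ha).symm⟩⟩
  loopless := ⟨fun _ h => h.1 rfl⟩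

@[simp] lemma cone_adj_none_some (H : SimpleGraph W) (w : W) : (cone H).Adj none (some w) := by
  simp [cone]

@[simp] lemma cone_adj_some_none (H : SimpleGraph W) (w : W) : (cone H).Adj (some w) none := by
  simp [cone]

@[simp] lemma cone_adj_some_some (H : SimpleGraph W) (v w : W) :
    (cone H).Adj (some v) (some w) ↔ H.Adj v w := by
  constructor
  · intro h; exact h.2 v rfl w rfl
  · intro h
    refine ⟨fun hh => h.ne (Option.some_injective _ hh), ?_⟩
    rintro a ha b hb
    cases ha; cases hb; exact h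

lemma triangle_false {R : SimpleGraph V} (hR : R.CliqueFree 3) {a b c : V} (hab : R.Adj a b)
    (hbc : R.Adj b c) (hac : R.Adj a c) : False := by
  classical
  exact hR {a, b, c} (is3Clique_triple_iff.mpr ⟨hab, hac, hbc⟩)

/-- a blue `H` in the blue neighbourhood of a vertex gives a blue `K_1 + H`. -/
lemma cone_contained {H : SimpleGraph W} {R : SimpleGraph V} (v : V)
    (h : H ⊑ (R.induce {w | w ≠ v ∧ ¬ R.Adj v w})ᶜ) : cone H ⊑ Rᶜ := by
  obtain ⟨f⟩ := h
  refine ⟨⟨⟨fun x => x.elim v (fun w => (f w : V)), ?_⟩, ?_⟩⟩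
  · intro x y hxy
    rcases x with _ | x <;> rcases y with _ | y
    · exact absurd hxy ((cone H).loopless.irrefl _)
    · have := (f y).2
      simp only [Option.elim]
      rw [SimpleGraph.compl_adj]
      exact ⟨this.1.symm, this.2⟩
    · have := (f x).2
      simp only [Option.elim]
      rw [SimpleGraph.compl_adj]
      exact ⟨this.1, fun hh => this.2 hh.symm⟩
    · rw [cone_adj_some_some] at hxy
      have := f.toHom.map_adj hxy
      rw [SimpleGraph.compl_adj] at this
      simp only [Option.elim]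
      rw [SimpleGraph.compl_adj]
      refine ⟨fun hh => this.1 (Subtype.ext hh), fun hh => this.2 ?_⟩
      simpa using hh
  · intro x y hxy
    rcases x with _ | x <;> rcases y with _ | y
    · rfl
    · exact absurd (show v = f y from hxy) ((f y).2.1.symm)
    · exact absurd (show (f x : V) = v from hxy) ((f x).2.1)
    · have : f x = f y := Subtype.ext hxy
      rw [f.injective this]

lemma cliqueFree_induce {R : SimpleGraph V} (hR : R.CliqueFree 3) (S : Set V) :
    (R.induce S).CliqueFree 3 := hR.comap ⟨(SimpleGraph.Embedding.induce S).toCopy⟩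

/-- union step -/
lemma arrows_sum [Fintype W] {H : SimpleGraph W} {J : SimpleGraph U} {a b N : ℕ}
    (hH : Arrows K3 H a) (hJ : Arrows K3 J b) (ha : a ≤ N) (hb : Fintype.card W + b ≤ N) :
    Arrows K3 (H ⊕g J) N := by
  classical
  intro R
  by_cases hR : R.CliqueFree 3
  swap
  · left; exact K3_contained_iff.mpr hR
  right
  rcases arrows_mono hH ha R with h | ⟨⟨f⟩⟩
  · exact absurd hR (K3_contained_iff.mp h)
  set L : Set (Fin N) := {x | x ∉ Set.range f} with hL
  have hcard : b ≤ Fintype.card L := by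
    have h1 : Fintype.card (Set.range f) = Fintype.card W :=
      Set.card_range_of_injective f.injective
    have h2 : Fintype.card L = N - Fintype.card (Set.range f) := by
      have := Fintype.card_compl_set (Set.range f)
      rw [Fintype.card_fin] at this
      rw [← this]
      rfl
    omega
  rcases arrows_of_card hJ hcard (R.induce L) with h | ⟨⟨g⟩⟩
  · exact absurd (cliqueFree_induce hR L) (K3_contained_iff.mp h)
  refine ⟨⟨⟨fun x => Sum.elim f (fun u => (g u : Fin N)) x, ?_⟩, ?_⟩⟩
  · intro x y hxy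
    rcases x with x | x <;> rcases y with y | y
    · simp only [sum_adj_inl] at hxy
      exact f.toHom.map_adj hxy
    · exact absurd hxy (by simp)
    · exact absurd hxy.symm (by simp)
    · simp only [sum_adj_inr] at hxy
      have := g.toHom.map_adj hxy
      rw [SimpleGraph.compl_adj] at this
      simp only [Sum.elim_inr]
      rw [SimpleGraph.compl_adj]
      refine ⟨fun hh => this.1 (Subtype.ext hh), fun hh => this.2 ?_⟩
      simpa using hh
  · intro x y hxy
    rcases x with x | x <;> rcases y with y | y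
    · have : f x = f y := hxy
      rw [f.injective this]
    · have : f x = (g y : Fin N) := hxy
      exact absurd ⟨x, this⟩ (g y).2
    · have : (g x : Fin N) = f y := hxy
      exact absurd ⟨y, this.symm⟩ (g x).2
    · have : g x = g y := Subtype.ext hxy
      rw [g.injective this]

lemma arrows_bot [Fintype W] : Arrows K3 (⊥ : SimpleGraph W) (Fintype.card W) := by
  intro R
  right
  refine ⟨⟨⟨Fintype.equivFin W, ?_⟩, (Fintype.equivFin W).injective⟩⟩
  intro a b hab
  exact absurd hab (by simp)

lemma arrows_K2 : Arrows K3 (completeGraph (Fin 2)) 3 := by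
  intro R
  by_cases hR : R.CliqueFree 3
  swap
  · left; exact K3_contained_iff.mpr hR
  right
  have : ∃ x y : Fin 3, x ≠ y ∧ ¬ R.Adj x y := by
    by_contra hcon
    push Not at hcon
    exact triangle_false hR (hcon 0 1 (by decide)) (hcon 1 2 (by decide)) (hcon 0 2 (by decide))
  obtain ⟨x, y, hxy, hadj⟩ := this
  refine ⟨⟨⟨![x, y], ?_⟩, ?_⟩⟩
  · intro a b hab
    rw [SimpleGraph.compl_adj]
    fin_cases a <;> fin_cases b <;> simp_all [R.adj_comm, ne_comm]
  · intro a b hab
    fin_cases a <;> fin_cases b <;> simp_all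
    exact absurd hab.symm hxy

/-- a blue path on three vertices, from three vertices. -/
lemma P3_contained {R : SimpleGraph V} {x y z : V} (hxz : x ≠ z) (hxy : x ≠ y) (hyz : y ≠ z)
    (h1 : ¬ R.Adj x y) (h2 : ¬ R.Adj y z) : P3 ⊑ Rᶜ := by
  refine ⟨⟨⟨![x, y, z], ?_⟩, ?_⟩⟩
  · intro a b hab
    rw [SimpleGraph.compl_adj]
    fin_cases a <;> fin_cases b <;> simp_all [P3, R.adj_comm, ne_comm]
  · intro a b hab
    fin_cases a <;> fin_cases b <;> simp_all <;>
      first | exact absurd hab.symm hxy | exact absurd hab.symm hyz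

lemma arrows_P3 : Arrows K3 P3 5 := by
  intro R
  by_cases hR : R.CliqueFree 3
  swap
  · left; exact K3_contained_iff.mpr hR
  right
  by_contra hcon
  have key : ∀ x y z : Fin 5, x ≠ z → x ≠ y → y ≠ z → R.Adj x y ∨ R.Adj y z := by
    intro x y z h1 h2 h3
    by_contra h
    push Not at h
    exact hcon (P3_contained h1 h2 h3 h.1 h.2)
  have fin : ∀ x y z : Fin 5, x ≠ z → x ≠ y → y ≠ z → R.Adj 0 x → R.Adj 0 y → R.Adj 0 z → False := by
    intro x y z h1 h2 h3 hx hy hz
    rcases key x y z h1 h2 h3 with h | h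
    · exact triangle_false hR hx h hy
    · exact triangle_false hR hy h hz
  rcases key 1 0 2 (by decide) (by decide) (by decide) with h1 | h1 <;>
  rcases key 3 0 4 (by decide) (by decide) (by decide) with h2 | h2
  · rcases key 2 0 4 (by decide) (by decide) (by decide) with h3 | h3
    · exact fin 1 2 3 (by decide) (by decide) (by decide) h1.symm h3.symm h2.symm
    · exact fin 1 4 3 (by decide) (by decide) (by decide) h1.symm h3 h2.symm
  · rcases key 2 0 3 (by decide) (by decide) (by decide) with h3 | h3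
    · exact fin 1 2 4 (by decide) (by decide) (by decide) h1.symm h3.symm h2
    · exact fin 1 3 4 (by decide) (by decide) (by decide) h1.symm h3 h2
  · rcases key 1 0 4 (by decide) (by decide) (by decide) with h3 | h3
    · exact fin 2 1 3 (by decide) (by decide) (by decide) h1 h3.symm h2.symm
    · exact fin 2 4 3 (by decide) (by decide) (by decide) h1 h3 h2.symm
  · rcases key 1 0 3 (by decide) (by decide) (by decide) with h3 | h3
    · exact fin 2 1 4 (by decide) (by decide) (by decide) h1 h3.symm h2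
    · exact fin 2 3 4 (by decide) (by decide) (by decide) h1 h3 h2

end upper


/-! ### The key lemma (via the Andrasfai-Erdos-Sos theorem) -/

section key

variable {V W U : Type*}

/-- If `H` has `n - 1` vertices and is forced in blue on `2 n - 2 - ⌊(4 n - 2) / 5⌋` vertices, then
`K_1 + H` is forced in blue on `2 n - 1` vertices. -/
lemma arrows_cone [Fintype W] {H : SimpleGraph W} {n : ℕ} (hn : 1 ≤ n)
    (hW : Fintype.card W + 1 = n) (hH : Arrows K3 H (2 * n - 2 - (4 * n - 2) / 5)) :
    Arrows K3 (cone H) (2 * n - 1) := by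
  classical
  intro R
  by_cases hR : R.CliqueFree 3
  swap
  · left; exact K3_contained_iff.mpr hR
  right
  have hcW : Fintype.card (Option W) = n := by rw [Fintype.card_option, hW]
  by_cases hcol : R.Colorable 2
  · -- some colour class has at least `n` vertices
    obtain ⟨c⟩ := hcol
    have hex : ∃ i : Fin 2, n ≤ #(univ.filter (fun v => c v = i)) := by
      by_contra hcon
      push Not at hcon
      have h0 := hcon 0
      have h1 := hcon 1
      have hsum : #(univ.filter (fun v => c v = 0)) + #(univ.filter (fun v => c v = 1))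
          = 2 * n - 1 := by
        rw [← Finset.card_union_of_disjoint]
        · have : (univ.filter (fun v => c v = 0)) ∪ (univ.filter (fun v => c v = 1)) = univ := by
            ext v
            simp only [Finset.mem_union, Finset.mem_filter, Finset.mem_univ, true_and, iff_true]
            generalize c v = i
            revert i
            decide
          rw [this]
          simp
        · rw [Finset.disjoint_filter]
          intro v _ h h'
          rw [h] at h'
          exact absurd h' (by decide)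
      omega
    obtain ⟨i, hi⟩ := hex
    refine contained_compl_of_indep (cone H) (S := univ.filter (fun v => c v = i)) ?_ ?_
    · intro a ha b hb hab hadj
      simp only [Finset.coe_filter, Finset.mem_univ, true_and, Set.mem_ofPred_eq] at ha hb
      exact c.valid hadj (ha.trans hb.symm)
    · rw [hcW]; exact hi
  · have hdeg : R.minDegree ≤ (4 * n - 2) / 5 := by
      by_contra hcon
      push Not at hcon
      apply hcol
      apply colorable_of_cliqueFree_lt_minDegree hR
      have : (3 * 2 - 4) * Fintype.card (Fin (2 * n - 1)) / (3 * 2 - 1) = (4 * n - 2) / 5 := by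
        rw [Fintype.card_fin]
        congr 1
        omega
      rw [this]
      exact hcon
    have : Nonempty (Fin (2 * n - 1)) := ⟨⟨0, by omega⟩⟩
    obtain ⟨v, hv⟩ := R.exists_minimal_degree_vertex
    rw [hv] at hdeg
    apply cone_contained v
    have hcard : 2 * n - 2 - (4 * n - 2) / 5 ≤
        Fintype.card {w : Fin (2 * n - 1) | w ≠ v ∧ ¬ R.Adj v w} := by
      have h1 : Fintype.card {w : Fin (2 * n - 1) | w ≠ v ∧ ¬ R.Adj v w}
          = #(univ.filter (fun w => w ≠ v ∧ ¬ R.Adj v w)) := by
        rw [← Fintype.card_subtype]; rfl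
      have h2 : (univ.filter (fun w => w ≠ v ∧ ¬ R.Adj v w))
          = (univ.erase v) \ (R.neighborFinset v) := by
        ext w
        simp
      rw [h1, h2]
      have h3 := Finset.le_card_sdiff (R.neighborFinset v) (univ.erase v)
      rw [Finset.card_erase_of_mem (Finset.mem_univ v), Finset.card_univ, Fintype.card_fin,
        card_neighborFinset_eq_degree] at h3
      omega
    rcases arrows_of_card hH hcard (R.induce _) with h | h
    · exact absurd (cliqueFree_induce hR _) (K3_contained_iff.mp h)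
    · exact h

lemma cone_P3_contained {R : SimpleGraph V} {x y p q : V} (hxy : x ≠ y) (hxp : x ≠ p)
    (hxq : x ≠ q) (hyp : y ≠ p) (hyq : y ≠ q) (hpq : p ≠ q)
    (h1 : ¬ R.Adj x y) (h2 : ¬ R.Adj x p) (h3 : ¬ R.Adj x q) (h4 : ¬ R.Adj y p)
    (h5 : ¬ R.Adj y q) : cone P3 ⊑ Rᶜ := by
  apply cone_contained x
  refine P3_contained (x := ⟨p, hxp.symm, h2⟩) (y := ⟨y, hxy.symm, h1⟩) (z := ⟨q, hxq.symm, h3⟩)
    ?_ ?_ ?_ ?_ ?_
  · simpa using hpq
  · simpa using hyp.symm
  · simpa using hyq
  · simpa using fun h => h4 (R.adj_symm h)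
  · simpa using h5

/-- `r(K_3, K_4 - e) ≤ 7`. -/
lemma arrows_K4e : Arrows K3 (cone P3) 7 := by
  classical
  intro R
  by_cases hR : R.CliqueFree 3
  swap
  · left; exact K3_contained_iff.mpr hR
  right
  by_contra hcon
  -- no blue book
  have nobook : ∀ x y p q : Fin 7, x ≠ y → x ≠ p → x ≠ q → y ≠ p → y ≠ q → p ≠ q →
      ¬ R.Adj x y → ¬ R.Adj x p → ¬ R.Adj x q → ¬ R.Adj y p → ¬ R.Adj y q → False :=
    fun x y p q h1 h2 h3 h4 h5 h6 a1 a2 a3 a4 a5 =>
      hcon (cone_P3_contained h1 h2 h3 h4 h5 h6 a1 a2 a3 a4 a5)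
  -- blue neighbourhoods have at most four vertices
  have stepA : ∀ v, 2 ≤ R.degree v := by
    intro v
    by_contra hlt
    push Not at hlt
    apply hcon
    apply cone_contained v
    have hcard : 5 ≤ Fintype.card {w : Fin 7 | w ≠ v ∧ ¬ R.Adj v w} := by
      have h1 : Fintype.card {w : Fin 7 | w ≠ v ∧ ¬ R.Adj v w}
          = #(univ.filter (fun w => w ≠ v ∧ ¬ R.Adj v w)) := by
        rw [← Fintype.card_subtype]; rfl
      have h2 : (univ.filter (fun w => w ≠ v ∧ ¬ R.Adj v w))
          = (univ.erase v) \ (R.neighborFinset v) := by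
        ext w
        simp
      rw [h1, h2]
      have h3 := Finset.le_card_sdiff (R.neighborFinset v) (univ.erase v)
      rw [Finset.card_erase_of_mem (Finset.mem_univ v), Finset.card_univ, Fintype.card_fin,
        card_neighborFinset_eq_degree] at h3
      omega
    rcases arrows_of_card arrows_P3 hcard (R.induce _) with h | h
    · exact absurd (cliqueFree_induce hR _) (K3_contained_iff.mp h)
    · exact h
  -- no vertex of red degree at least three
  have stepB : ∀ v, R.degree v ≤ 2 := by
    intro v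
    by_contra hlt
    push Not at hlt
    rw [← card_neighborFinset_eq_degree] at hlt
    obtain ⟨A, hA, hAc⟩ := Finset.exists_subset_card_eq (show 3 ≤ _ from hlt)
    obtain ⟨a1, a2, a3, h12, h13, h23, rfl⟩ := Finset.card_eq_three.mp hAc
    have hv1 : R.Adj v a1 := by simpa using hA (by simp)
    have hv2 : R.Adj v a2 := by simpa using hA (by simp)
    have hv3 : R.Adj v a3 := by simpa using hA (by simp)
    have n12 : ¬ R.Adj a1 a2 := fun h => triangle_false hR hv1 h hv2
    have n13 : ¬ R.Adj a1 a3 := fun h => triangle_false hR hv1 h hv3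
    have n23 : ¬ R.Adj a2 a3 := fun h => triangle_false hR hv2 h hv3
    have hB : 3 ≤ #((univ : Finset (Fin 7)) \ {v, a1, a2, a3}) := by
      have h3 := Finset.le_card_sdiff {v, a1, a2, a3} (univ : Finset (Fin 7))
      have h4 : #({v, a1, a2, a3} : Finset (Fin 7)) ≤ 4 := Finset.card_le_four
      rw [Finset.card_univ, Fintype.card_fin] at h3
      omega
    obtain ⟨B, hBs, hBc⟩ := Finset.exists_subset_card_eq hB
    obtain ⟨b1, b2, b3, g12, g13, g23, rfl⟩ := Finset.card_eq_three.mp hBc
    have two : ∀ w, w ≠ v → w ≠ a1 → w ≠ a2 → w ≠ a3 →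
        (R.Adj w a1 ∨ R.Adj w a2) ∧ (R.Adj w a2 ∨ R.Adj w a3) ∧ (R.Adj w a1 ∨ R.Adj w a3) := by
      intro w _ w1 w2 w3
      refine ⟨?_, ?_, ?_⟩
      · by_contra h
        push Not at h
        exact nobook a1 a2 a3 w h12 h13 w1.symm h23 w2.symm w3.symm n12 n13
          (fun hh => h.1 hh.symm) n23 (fun hh => h.2 hh.symm)
      · by_contra h
        push Not at h
        exact nobook a2 a3 a1 w h23 h12.symm w2.symm h13.symm w3.symm w1.symm n23
          (fun hh => n12 hh.symm) (fun hh => h.1 hh.symm) (fun hh => n13 hh.symm)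
          (fun hh => h.2 hh.symm)
      · by_contra h
        push Not at h
        exact nobook a1 a3 a2 w h13 h12 w1.symm h23.symm w3.symm w2.symm n13 n12
          (fun hh => h.1 hh.symm) (fun hh => n23 hh.symm) (fun hh => h.2 hh.symm)
    have mem1 : b1 ≠ v ∧ b1 ≠ a1 ∧ b1 ≠ a2 ∧ b1 ≠ a3 := by
      have := hBs (show b1 ∈ _ by simp)
      simpa using this
    have mem2 : b2 ≠ v ∧ b2 ≠ a1 ∧ b2 ≠ a2 ∧ b2 ≠ a3 := by
      have := hBs (show b2 ∈ _ by simp)
      simpa using this
    have mem3 : b3 ≠ v ∧ b3 ≠ a1 ∧ b3 ≠ a2 ∧ b3 ≠ a3 := by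
      have := hBs (show b3 ∈ _ by simp)
      simpa using this
    have indep : ∀ w w', w ≠ v ∧ w ≠ a1 ∧ w ≠ a2 ∧ w ≠ a3 →
        w' ≠ v ∧ w' ≠ a1 ∧ w' ≠ a2 ∧ w' ≠ a3 → ¬ R.Adj w w' := by
      intro w w' hw hw' hadj
      obtain ⟨p1, p2, p3⟩ := two w hw.1 hw.2.1 hw.2.2.1 hw.2.2.2
      obtain ⟨q1, q2, q3⟩ := two w' hw'.1 hw'.2.1 hw'.2.2.1 hw'.2.2.2
      have t1 : R.Adj w a1 → R.Adj w' a1 → False := fun x y => triangle_false hR hadj y x
      have t2 : R.Adj w a2 → R.Adj w' a2 → False := fun x y => triangle_false hR hadj y x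
      have t3 : R.Adj w a3 → R.Adj w' a3 → False := fun x y => triangle_false hR hadj y x
      rcases p1 with h1 | h1
      · rcases p2 with h2 | h2
        · exact q1.elim (t1 h1) (t2 h2)
        · exact q3.elim (t1 h1) (t3 h2)
      · rcases p3 with h3 | h3
        · exact q1.elim (t1 h3) (t2 h1)
        · exact q2.elim (t2 h1) (t3 h3)
    have indepv : ∀ w, w ≠ v ∧ w ≠ a1 ∧ w ≠ a2 ∧ w ≠ a3 → ¬ R.Adj v w := by
      intro w hw hadj
      obtain ⟨p1, p2, p3⟩ := two w hw.1 hw.2.1 hw.2.2.1 hw.2.2.2
      rcases p1 with h | h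
      · exact triangle_false hR hadj h hv1
      · exact triangle_false hR hadj h hv2
    exact nobook v b1 b2 b3 mem1.1.symm mem2.1.symm mem3.1.symm g12 g13 g23
      (indepv _ mem1) (indepv _ mem2) (indepv _ mem3) (indep _ _ mem1 mem2) (indep _ _ mem1 mem3)
  -- now the red graph is 2-regular
  have hdeg : #(R.neighborFinset 0) = 2 := by
    rw [card_neighborFinset_eq_degree]
    exact le_antisymm (stepB 0) (stepA 0)
  obtain ⟨a, b, hab, hN⟩ := Finset.card_eq_two.mp hdeg
  have ha : R.Adj 0 a := by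
    have : a ∈ R.neighborFinset 0 := by rw [hN]; simp
    simpa using this
  have hb : R.Adj 0 b := by
    have : b ∈ R.neighborFinset 0 := by rw [hN]; simp
    simpa using this
  have hother : ∀ w, R.Adj 0 w → w = a ∨ w = b := by
    intro w hw
    have : w ∈ R.neighborFinset 0 := by simpa using hw
    rw [hN] at this
    simpa using this
  have hnab : ¬ R.Adj a b := fun h => triangle_false hR ha h hb
  -- a second neighbour of `a`
  have hex : ∃ w, w ≠ 0 ∧ R.Adj a w := by
    have h2 : 1 < #(R.neighborFinset a) := by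
      rw [card_neighborFinset_eq_degree]; exact stepA a
    obtain ⟨w, hw, hw0⟩ := Finset.exists_mem_ne h2 0
    exact ⟨w, hw0, by simpa using hw⟩
  obtain ⟨w, hw0, haw⟩ := hex
  have hwa : w ≠ a := haw.ne.symm
  have hwb : w ≠ b := fun h => hnab (h ▸ haw)
  have h0w : ¬ R.Adj 0 w := fun h => triangle_false hR ha haw h
  -- the three vertices other than 0, a, b, w
  have hcardT : 3 ≤ #((univ : Finset (Fin 7)) \ {0, a, b, w}) := by
    have h3 := Finset.le_card_sdiff {0, a, b, w} (univ : Finset (Fin 7))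
    have h4 : #({0, a, b, w} : Finset (Fin 7)) ≤ 4 := Finset.card_le_four
    rw [Finset.card_univ, Fintype.card_fin] at h3
    omega
  obtain ⟨T, hTs, hTc⟩ := Finset.exists_subset_card_eq hcardT
  obtain ⟨t1, t2, t3, k12, k13, k23, rfl⟩ := Finset.card_eq_three.mp hTc
  have m1 : t1 ≠ 0 ∧ t1 ≠ a ∧ t1 ≠ b ∧ t1 ≠ w := by
    have := hTs (show t1 ∈ _ by simp)
    simpa using this
  have m2 : t2 ≠ 0 ∧ t2 ≠ a ∧ t2 ≠ b ∧ t2 ≠ w := by
    have := hTs (show t2 ∈ _ by simp)
    simpa using this
  have m3 : t3 ≠ 0 ∧ t3 ≠ a ∧ t3 ≠ b ∧ t3 ≠ w := by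
    have := hTs (show t3 ∈ _ by simp)
    simpa using this
  have z : ∀ t, t ≠ a ∧ t ≠ b → ¬ R.Adj 0 t := by
    intro t ht hadj
    rcases hother t hadj with h | h
    · exact ht.1 h
    · exact ht.2 h
  have e1 := z t1 ⟨m1.2.1, m1.2.2.1⟩
  have e2 := z t2 ⟨m2.2.1, m2.2.2.1⟩
  have e3 := z t3 ⟨m3.2.1, m3.2.2.1⟩
  -- `w` is adjacent to at least two of `t1, t2, t3`, and to `a`
  have hmany : ∀ p q, p ≠ q → p ≠ w → q ≠ w → p ≠ a → q ≠ a → R.Adj w p → R.Adj w q → False := by
    intro p q hpq hpw hqw hpa hqa hp hq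
    have hsub : ({a, p, q} : Finset (Fin 7)) ⊆ R.neighborFinset w := by
      intro x hx
      simp only [Finset.mem_insert, Finset.mem_singleton] at hx
      rw [mem_neighborFinset]
      rcases hx with hx | hx | hx
      · rw [hx]; exact haw.symm
      · rw [hx]; exact hp
      · rw [hx]; exact hq
    have h3 : #({a, p, q} : Finset (Fin 7)) = 3 := by
      rw [Finset.card_eq_three]
      exact ⟨a, p, q, hpa.symm, hqa.symm, hpq, rfl⟩
    have := Finset.card_le_card hsub
    rw [h3, card_neighborFinset_eq_degree] at this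
    have := stepB w
    omega
  have pair : ∀ p q, p ≠ q → (p ≠ 0 ∧ p ≠ a ∧ p ≠ b ∧ p ≠ w) → (q ≠ 0 ∧ q ≠ a ∧ q ≠ b ∧ q ≠ w) →
      R.Adj w p ∨ R.Adj w q := by
    intro p q hpq hp hq
    by_contra h
    push Not at h
    exact nobook 0 w p q hw0.symm hp.1.symm hq.1.symm hp.2.2.2.symm hq.2.2.2.symm hpq h0w
      (z p ⟨hp.2.1, hp.2.2.1⟩) (z q ⟨hq.2.1, hq.2.2.1⟩) h.1 h.2
  rcases pair t1 t2 k12 m1 m2 with h | h
  · rcases pair t2 t3 k23 m2 m3 with h' | h'
    · exact hmany t1 t2 k12 m1.2.2.2 m2.2.2.2 m1.2.1 m2.2.1 h h'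
    · exact hmany t1 t3 k13 m1.2.2.2 m3.2.2.2 m1.2.1 m3.2.1 h h'
  · rcases pair t1 t3 k13 m1 m3 with h' | h'
    · exact hmany t2 t1 k12.symm m2.2.2.2 m1.2.2.2 m2.2.1 m1.2.1 h h'
    · exact hmany t2 t3 k23 m2.2.2.2 m3.2.2.2 m2.2.1 m3.2.1 h h'

end key


/-! ### Edge counts -/

section edges

variable {V W U : Type*}

lemma ncard_edgeSet [Fintype V] (G : SimpleGraph V) [DecidableRel G.Adj] [DecidableEq V] :
    G.edgeSet.ncard = #G.edgeFinset := by
  rw [← coe_edgeFinset, Set.ncard_coe_finset]

lemma edges_sum [Finite V] [Finite W] (G : SimpleGraph V) (H : SimpleGraph W) :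
    (G ⊕g H).edgeSet.ncard = G.edgeSet.ncard + H.edgeSet.ncard := by
  have h := Nat.card_congr (edgeSetSumEquiv (G := G) (H := H))
  rw [Nat.card_sum] at h
  simpa [Set.ncard] using h

lemma edges_bot : (⊥ : SimpleGraph V).edgeSet.ncard = 0 := by simp

lemma edges_P3 : P3.edgeSet.ncard = 2 := by
  classical
  have hd : DecidableRel P3.Adj := fun i j => inferInstanceAs (Decidable (i ≠ j ∧ (i = 1 ∨ j = 1)))
  have h := P3.sum_degrees_eq_twice_card_edges
  rw [ncard_edgeSet]
  have h2 : ∑ v, P3.degree v = 4 := by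
    have : ∀ v, P3.degree v = #(univ.filter (fun w => v ≠ w ∧ (v = 1 ∨ w = 1))) := by
      intro v
      rw [← card_neighborFinset_eq_degree]
      congr 1
      ext w
      simp [P3]
    simp_rw [this]
    decide
  rw [h2] at h
  omega

lemma edges_K2 : (completeGraph (Fin 2)).edgeSet.ncard = 1 := by
  classical
  rw [ncard_edgeSet]
  have := card_edgeFinset_top_eq_card_choose_two (V := Fin 2)
  rw [Fintype.card_fin] at this
  simpa using this

lemma edges_cone [Fintype W] (H : SimpleGraph W) :
    (cone H).edgeSet.ncard = Fintype.card W + H.edgeSet.ncard := by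
  classical
  rw [ncard_edgeSet, ncard_edgeSet]
  have h1 := (cone H).sum_degrees_eq_twice_card_edges
  have h2 := H.sum_degrees_eq_twice_card_edges
  have hnone : (cone H).degree none = Fintype.card W := by
    rw [← card_neighborFinset_eq_degree]
    have : (cone H).neighborFinset none = univ.map Function.Embedding.some := by
      ext x
      rcases x with _ | x
      · simp
      · simp
    rw [this, Finset.card_map, Finset.card_univ]
  have hsome : ∀ w, (cone H).degree (some w) = H.degree w + 1 := by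
    intro w
    rw [← card_neighborFinset_eq_degree, ← card_neighborFinset_eq_degree]
    have : (cone H).neighborFinset (some w)
        = insert none ((H.neighborFinset w).map Function.Embedding.some) := by
      ext x
      rcases x with _ | x
      · simp
      · simp
    rw [this, Finset.card_insert_of_notMem (by simp), Finset.card_map]
  rw [Fintype.sum_option, hnone] at h1
  simp_rw [hsome] at h1
  rw [Finset.sum_add_distrib, h2] at h1
  simp at h1
  omega

lemma edges_cliqueUnion {ι : Type*} [Fintype ι] (s : ι → ℕ) :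
    (cliqueUnion s).edgeSet.ncard = ∑ i, (s i).choose 2 := by
  classical
  rw [ncard_edgeSet]
  have h1 := (cliqueUnion s).sum_degrees_eq_twice_card_edges
  have hdeg : ∀ x : (Σ i, Fin (s i)), (cliqueUnion s).degree x = s x.1 - 1 := by
    rintro ⟨i, a⟩
    rw [← card_neighborFinset_eq_degree]
    have : (cliqueUnion s).neighborFinset ⟨i, a⟩
        = (univ.erase a).map (Function.Embedding.sigmaMk i) := by
      ext ⟨j, b⟩
      simp only [mem_neighborFinset, cliqueUnion, Finset.mem_map, Finset.mem_erase,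
        Finset.mem_univ, and_true, Function.Embedding.sigmaMk_apply]
      constructor
      · rintro ⟨h, h'⟩
        subst h'
        exact ⟨b, fun hh => h (by rw [hh]), rfl⟩
      · rintro ⟨c, hc, hh⟩
        cases hh
        refine ⟨fun hh => hc ?_, rfl⟩
        simpa using hh.symm
    rw [this, Finset.card_map, Finset.card_erase_of_mem (Finset.mem_univ _)]
    simp
  simp_rw [hdeg] at h1
  rw [Fintype.sum_sigma] at h1
  simp only [Finset.sum_const, Finset.card_univ, Fintype.card_fin, smul_eq_mul] at h1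
  have h3 : ∑ i, s i * (s i - 1) = 2 * ∑ i, (s i).choose 2 := by
    rw [Finset.mul_sum]
    apply Finset.sum_congr rfl
    intro i _
    rw [Nat.choose_two_right, Nat.mul_div_cancel' (Nat.even_mul_pred_self _).two_dvd]
  omega

/-- transfer to `Fin n` -/
lemma le_gK3 [Fintype W] (H : SimpleGraph W) {n : ℕ} (hn : 1 ≤ n) (hW : Fintype.card W + 1 = n)
    (hH : Arrows K3 (cone H) (2 * n - 1)) : n - 1 + H.edgeSet.ncard ≤ gK3 n := by
  classical
  have hcW : Fintype.card (Option W) = n := by rw [Fintype.card_option, hW]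
  let e : Option W ≃ Fin n := Fintype.equivFinOfCardEq hcW
  let G : SimpleGraph (Fin n) := (cone H).map e.toEmbedding
  let iso : cone H ≃g G := SimpleGraph.Iso.map e (cone H)
  have hconn : (cone H).Connected := by
    rw [connected_iff_exists_forall_reachable]
    refine ⟨none, ?_⟩
    intro w
    rcases w with _ | w
    · exact Reachable.refl _
    · exact (cone_adj_none_some H w).reachable
  have hG : G.Connected := iso.connected_iff.mp hconn
  have hedge : G.edgeSet.ncard = n - 1 + H.edgeSet.ncard := by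
    have h1 : G.edgeSet.ncard = (cone H).edgeSet.ncard := by
      rw [← Nat.card_coe_set_eq, ← Nat.card_coe_set_eq]
      exact (Nat.card_congr iso.mapEdgeSet).symm
    rw [h1, edges_cone]
    omega
  have harr : Arrows K3 G (2 * n - 1) := arrows_of_contained hH ⟨iso.symm.toCopy⟩
  have hram : ramseyNumber K3 G = 2 * n - 1 := by
    apply le_antisymm
    · exact (ramseyNumber_le_iff G _).mpr harr
    · have := connected_lower G hG
      rw [← ramseyNumber_lt_iff, Fintype.card_fin] at this
      omega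
  rw [gK3]
  refine le_csSup ?_ ⟨G, hG, hram, hedge⟩
  refine ⟨n.choose 2, ?_⟩
  rintro q ⟨G', -, -, rfl⟩
  rw [ncard_edgeSet]
  have := G'.card_edgeFinset_le_card_choose_two
  rwa [Fintype.card_fin] at this

end edges


/-! ### The optimal family -/

section main

lemma cliqueUnion_contained {ι ι' : Type*} (s : ι → ℕ) (s' : ι' → ℕ) (φ : ι' ↪ ι)
    (h : ∀ i, s' i ≤ s (φ i)) : cliqueUnion s' ⊑ cliqueUnion s := by
  refine ⟨⟨⟨fun x => ⟨φ x.1, Fin.castLE (h x.1) x.2⟩, ?_⟩, ?_⟩⟩
  · rintro ⟨i, a⟩ ⟨j, b⟩ ⟨hne, hij⟩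
    simp only at hij
    subst hij
    refine ⟨fun hh => hne ?_, rfl⟩
    simp only [Sigma.mk.injEq, heq_eq_eq, true_and, Fin.castLE_inj] at hh
    rw [hh]
  · rintro ⟨i, a⟩ ⟨j, b⟩ hh
    simp only [RelHom.coeFn_mk, Sigma.mk.injEq, EmbeddingLike.apply_eq_iff_eq] at hh
    obtain ⟨h1, h2⟩ := hh
    subst h1
    simp only [heq_eq_eq, Fin.castLE_inj] at h2
    rw [h2]

lemma clique_contained {ι : Type*} (s : ι → ℕ) (i : ι) (k : ℕ) (h : k ≤ s i) :
    completeGraph (Fin k) ⊑ cliqueUnion s := by
  refine ⟨⟨⟨fun x => ⟨i, Fin.castLE h x⟩, ?_⟩, ?_⟩⟩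
  · intro a b hab
    refine ⟨fun hh => hab.ne ?_, rfl⟩
    simpa using hh
  · intro a b hh
    simpa using hh

lemma sum_le_of_arrows {ι : Type*} [Fintype ι] (s : ι → ℕ) {N : ℕ}
    (h : Arrows K3 (cliqueUnion s) N) : ∑ i, s i ≤ N := by
  classical
  rcases h ⊥ with h1 | ⟨⟨f⟩⟩
  · exact absurd (K3_contained_iff.mp h1) (by simp)
  · have := Fintype.card_le_of_injective f f.injective
    simpa using this

/-- the set whose maximum enters `e2`. -/
def S2 (n : ℕ) : Set ℕ := {q : ℕ | ∃ (t : ℕ) (s : Fin t → ℕ), 1 ≤ t ∧ (∀ i, 1 ≤ s i) ∧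
    ramseyNumber K3 (cliqueUnion s) ≤ n - 1 ∧ ∑ i, (s i).choose 2 = q}

/-- the set whose maximum enters `e1`. -/
def S1 (n : ℕ) : Set ℕ := {q : ℕ | ∃ t s : ℕ, 1 ≤ t ∧ 1 ≤ s ∧
    ramseyNumber K3 (cliqueUnion (fun _ : Fin t => s)) ≤ n - 1 ∧ t * s.choose 2 = q}

lemma e1_eq (n : ℕ) : e1 n = n - 1 + sSup (S1 n) := rfl

lemma e2_eq (n : ℕ) : e2 n = n - 1 + sSup (S2 n) := rfl

lemma S1_subset_S2 (n : ℕ) : S1 n ⊆ S2 n := by
  rintro q ⟨t, s, ht, hs, h, rfl⟩
  exact ⟨t, fun _ => s, ht, fun _ => hs, h, by simp⟩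

lemma S2_bddAbove (n : ℕ) : BddAbove (S2 n) := by
  refine ⟨(n - 1) * (n - 1), ?_⟩
  rintro q ⟨t, s, ht, hs, h, rfl⟩
  rw [ramseyNumber_le_iff] at h
  have hsum := sum_le_of_arrows s h
  calc ∑ i, (s i).choose 2 ≤ ∑ i, s i * (n - 1) := by
        apply Finset.sum_le_sum
        intro i _
        have h1 : s i ≤ n - 1 :=
          (Finset.single_le_sum (f := s) (fun _ _ => Nat.zero_le _) (Finset.mem_univ i)).trans hsum
        rw [Nat.choose_two_right]
        calc s i * (s i - 1) / 2 ≤ s i * (s i - 1) := Nat.div_le_self _ _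
          _ ≤ s i * (n - 1) := Nat.mul_le_mul_left _ (by omega)
    _ = (∑ i, s i) * (n - 1) := by rw [Finset.sum_mul]
    _ ≤ (n - 1) * (n - 1) := Nat.mul_le_mul_right _ hsum

lemma zero_mem_S1 {n : ℕ} (hn : 2 ≤ n) : 0 ∈ S1 n := by
  refine ⟨1, 1, le_rfl, le_rfl, ?_, by simp⟩
  rw [ramseyNumber_le_iff]
  have h1 : cliqueUnion (fun _ : Fin 1 => 1) = ⊥ := by
    ext x y
    simp only [cliqueUnion, bot_adj, iff_false, not_and]
    intro h
    refine absurd ?_ h
    obtain ⟨x1, x2⟩ := x
    obtain ⟨y1, y2⟩ := y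
    have h1 : x1 = y1 := Subsingleton.elim _ _
    subst h1
    have h2 : x2 = y2 := Subsingleton.elim _ _
    rw [h2]
  rw [h1]
  exact arrows_mono arrows_bot (by simp; omega)

lemma exists_opt {n : ℕ} (hn : 2 ≤ n) : sSup (S2 n) ∈ S2 n :=
  Nat.sSup_mem ⟨0, S1_subset_S2 n (zero_mem_S1 hn)⟩ (S2_bddAbove n)

lemma e1_le_e2 {n : ℕ} (hn : 2 ≤ n) : e1 n ≤ e2 n := by
  rw [e1_eq, e2_eq]
  have := csSup_le_csSup (S2_bddAbove n) ⟨0, zero_mem_S1 hn⟩ (S1_subset_S2 n)
  omega

lemma reduced {n q : ℕ} (hq : q ∈ S2 n) : ∃ (ι : Type) (_ : Fintype ι) (_ : DecidableEq ι)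
    (s : ι → ℕ), (∀ i, 2 ≤ s i) ∧ Arrows K3 (cliqueUnion s) (n - 1) ∧
      ∑ i, (s i).choose 2 = q := by
  obtain ⟨t, s, ht, hs, h, rfl⟩ := hq
  rw [ramseyNumber_le_iff] at h
  refine ⟨{i : Fin t // 2 ≤ s i}, inferInstance, inferInstance, fun i => s i, fun i => i.2, ?_, ?_⟩
  · exact arrows_of_contained h (cliqueUnion_contained s _ (Function.Embedding.subtype _)
      (fun i => le_rfl))
  · rw [← Finset.sum_subtype (univ.filter (fun i => 2 ≤ s i)) (by simp) (fun i => (s i).choose 2)]
    apply Finset.sum_filter_of_ne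
    intro i _ hne
    by_contra hlt
    exact hne (Nat.choose_eq_zero_of_lt (by omega))

/-- The number of vertices in nontrivial cliques is at most `n - 2`. -/
lemma sum_le {n : ℕ} {ι : Type} [Fintype ι] [Nonempty ι] (s : ι → ℕ) (hs : ∀ i, 2 ≤ s i)
    (hA : Arrows K3 (cliqueUnion s) (n - 1)) : ∑ i, s i + 2 ≤ n := by
  by_contra hcon
  push Not at hcon
  have h1 := clique_lower s 1 (fun i => hs i)
  obtain ⟨i0⟩ := (inferInstance : Nonempty ι)
  have h2 : s i0 ≤ ∑ i, s i := Finset.single_le_sum (fun _ _ => Nat.zero_le _) (Finset.mem_univ i0)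
  have := hs i0
  exact h1 (arrows_mono hA (by omega))

/-- if all cliques have order at least three, then one more. -/
lemma sum_le' {n : ℕ} {ι : Type} [Fintype ι] [Nonempty ι] (s : ι → ℕ) (hs : ∀ i, 3 ≤ s i)
    (hA : Arrows K3 (cliqueUnion s) (n - 1)) : ∑ i, s i + 3 ≤ n := by
  by_contra hcon
  push Not at hcon
  have h1 := clique_lower s 2 (fun i => hs i)
  obtain ⟨i0⟩ := (inferInstance : Nonempty ι)
  have h2 : s i0 ≤ ∑ i, s i := Finset.single_le_sum (fun _ _ => Nat.zero_le _) (Finset.mem_univ i0)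
  have := hs i0
  exact h1 (arrows_mono hA (by omega))

lemma opt_zero {n : ℕ} (hn : 2 ≤ n) (hn3 : n ≤ 3) : sSup (S2 n) = 0 := by
  obtain ⟨ι, _, _, s, hs, hA, hq⟩ := reduced (exists_opt hn)
  rw [← hq]
  by_cases hι : Nonempty ι
  · have h1 := sum_le s hs hA
    obtain ⟨i0⟩ := hι
    have h2 : s i0 ≤ ∑ i, s i :=
      Finset.single_le_sum (fun _ _ => Nat.zero_le _) (Finset.mem_univ i0)
    have := hs i0
    omega
  · rw [not_nonempty_iff] at hι
    simp

lemma opt_small {n : ℕ} (hn : 2 ≤ n) (hn3 : n ≤ 6) : 2 * sSup (S2 n) ≤ n - 2 := by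
  obtain ⟨ι, _, _, s, hs, hA, hq⟩ := reduced (exists_opt hn)
  rw [← hq]
  by_cases hι : Nonempty ι
  · have h1 := sum_le s hs hA
    have h2 : ∀ i, s i = 2 := by
      intro i
      by_contra hne
      have h3 : 3 ≤ s i := by have := hs i; omega
      exact not_arrows_K3_K3 (arrows_mono (arrows_of_contained hA (clique_contained s i 3 h3))
        (by omega))
    have h3 : ∀ i, (s i).choose 2 = 1 := fun i => by rw [h2 i]; rfl
    simp only [h2, Finset.sum_const, smul_eq_mul, Finset.card_univ] at h1
    simp only [h3, Finset.sum_const, smul_eq_mul, Finset.card_univ]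
    omega
  · rw [not_nonempty_iff] at hι
    simp

lemma opt_mid {n : ℕ} (hn : 3 ≤ n) (hn3 : n ≤ 8) : sSup (S2 n) ≤ n - 3 := by
  obtain ⟨ι, _, _, s, hs, hA, hq⟩ := reduced (exists_opt (by omega : 2 ≤ n))
  rw [← hq]
  by_cases hι : Nonempty ι
  · have h1 := sum_le s hs hA
    have h2 : ∀ i, s i ≤ 3 := by
      intro i
      by_contra hne
      exact not_arrows_K3_K4 (arrows_mono
        (arrows_of_contained hA (clique_contained s i 4 (by omega))) (by omega))
    have h3 : ∀ i, (s i).choose 2 ≤ s i := by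
      intro i
      have := hs i
      have := h2 i
      interval_cases (s i) <;> decide
    by_cases hall : ∀ i, 3 ≤ s i
    · have h4 := sum_le' s hall hA
      have h5 : ∑ i, (s i).choose 2 ≤ ∑ i, s i := Finset.sum_le_sum (fun i _ => h3 i)
      omega
    · push Not at hall
      obtain ⟨i0, hi0⟩ := hall
      have h5 : ∑ i, (s i).choose 2 < ∑ i, s i := by
        apply Finset.sum_lt_sum (fun i _ => h3 i)
        refine ⟨i0, Finset.mem_univ _, ?_⟩
        have := hs i0
        interval_cases (s i0)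
        decide
      omega
  · rw [not_nonempty_iff] at hι
    simp

/-- The general step: `n ≥ 9`, or `n ≥ 4` and at least two vertices outside the cliques. -/
lemma improve {n q : ℕ} (hn : 9 ≤ n) (hq : q ∈ S2 n) : n - 1 + (q + 1) ≤ gK3 n := by
  obtain ⟨ι, _, _, s, hs, hA, hq⟩ := reduced hq
  by_cases hι : Nonempty ι
  swap
  · -- no nontrivial clique
    rw [not_nonempty_iff] at hι
    have hq0 : q = 0 := by rw [← hq]; simp
    subst hq0
    have hH : Arrows K3 (completeGraph (Fin 2) ⊕g (⊥ : SimpleGraph (Fin (n - 3)))) (n - 1) := by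
      apply arrows_sum arrows_K2 arrows_bot (by omega)
      simp only [Fintype.card_fin]
      omega
    have h := le_gK3 (completeGraph (Fin 2) ⊕g (⊥ : SimpleGraph (Fin (n - 3)))) (n := n) (by omega)
      (by simp only [Fintype.card_sum, Fintype.card_fin]; omega)
      (arrows_cone (by omega) (by simp only [Fintype.card_sum, Fintype.card_fin]; omega)
        (arrows_mono hH (by omega)))
    rw [edges_sum, edges_K2, edges_bot] at h
    exact h
  have h1 := sum_le s hs hA
  have hcard : Fintype.card (Σ i, Fin (s i)) = ∑ i, s i := by simp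
  by_cases hr : ∑ i, s i + 3 ≤ n
  · -- add a `K_2`
    have hH : Arrows K3 (cliqueUnion s ⊕g completeGraph (Fin 2)) n := by
      apply arrows_sum hA arrows_K2 (by omega)
      rw [hcard]; omega
    have hH2 : Arrows K3 ((cliqueUnion s ⊕g completeGraph (Fin 2)) ⊕g
        (⊥ : SimpleGraph (Fin (n - 1 - (∑ i, s i + 2))))) n := by
      apply arrows_sum hH arrows_bot (by omega)
      simp only [Fintype.card_sum, Fintype.card_fin, hcard]
      omega
    have h := le_gK3 ((cliqueUnion s ⊕g completeGraph (Fin 2)) ⊕g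
        (⊥ : SimpleGraph (Fin (n - 1 - (∑ i, s i + 2))))) (n := n) (by omega)
      (by simp only [Fintype.card_sum, Fintype.card_fin, hcard]; omega)
      (arrows_cone (by omega) (by simp only [Fintype.card_sum, Fintype.card_fin, hcard]; omega)
        (arrows_mono hH2 (by omega)))
    rw [edges_sum, edges_sum, edges_K2, edges_bot, edges_cliqueUnion, hq] at h
    exact h
  · -- replace a `K_2` by a path
    have hex : ∃ i0, s i0 = 2 := by
      by_contra hcon
      push Not at hcon
      have := sum_le' s (fun i => by have := hs i; have := hcon i; omega) hA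
      omega
    obtain ⟨i0, hi0⟩ := hex
    let s' : {i : ι // i ≠ i0} → ℕ := fun i => s i
    have hA' : Arrows K3 (cliqueUnion s') (n - 1) :=
      arrows_of_contained hA (cliqueUnion_contained s s' (Function.Embedding.subtype _)
        (fun i => le_rfl))
    have hsplit : ∀ f : ι → ℕ, ∑ i, f i = f i0 + ∑ i : {i : ι // i ≠ i0}, f i := by
      intro f
      rw [← Finset.add_sum_erase _ _ (Finset.mem_univ i0)]
      congr 1
      rw [← Finset.sum_subtype (univ.erase i0) (by simp) f]
    have hsum : ∑ i, s i = 2 + ∑ i, s' i := by rw [hsplit, hi0]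
    have hchoose : q = 1 + ∑ i, (s' i).choose 2 := by
      rw [← hq, hsplit (fun i => (s i).choose 2), hi0]
      rfl
    have hcard' : Fintype.card (Σ i, Fin (s' i)) = ∑ i, s' i := by simp
    have hH : Arrows K3 (cliqueUnion s' ⊕g P3) (n + 1) := by
      apply arrows_sum hA' arrows_P3 (by omega)
      rw [hcard']; omega
    have h := le_gK3 (cliqueUnion s' ⊕g P3) (n := n) (by omega)
      (by simp only [Fintype.card_sum, Fintype.card_fin, hcard']; omega)
      (arrows_cone (by omega) (by simp only [Fintype.card_sum, Fintype.card_fin, hcard']; omega)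
        (arrows_mono hH (by omega)))
    rw [edges_sum, edges_P3, edges_cliqueUnion] at h
    omega

/-- for `n ≥ 4`, `g(K_3, n) > e_2(n)`. -/
theorem e2_lt_gK3 {n : ℕ} (hn : 4 ≤ n) : e2 n < gK3 n := by
  rw [e2_eq]
  by_cases h9 : 9 ≤ n
  · have := improve h9 (exists_opt (by omega))
    omega
  push Not at h9
  by_cases h6 : n ≤ 6
  · have hopt := opt_small (by omega : 2 ≤ n) h6
    interval_cases n
    · have h := le_gK3 P3 (n := 4) (by omega) (by simp) arrows_K4e
      rw [edges_P3] at h
      omega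
    · have hH : Arrows K3 (P3 ⊕g (⊥ : SimpleGraph (Fin 1))) 5 := by
        apply arrows_sum arrows_P3 arrows_bot (by omega)
        simp
      have h := le_gK3 (P3 ⊕g (⊥ : SimpleGraph (Fin 1))) (n := 5) (by omega) (by simp)
        (arrows_cone (by omega) (by simp) (arrows_mono hH (by omega)))
      rw [edges_sum, edges_P3, edges_bot] at h
      omega
    · have hH : Arrows K3 (P3 ⊕g completeGraph (Fin 2)) 6 := by
        apply arrows_sum arrows_P3 arrows_K2 (by omega)
        simp
      have h := le_gK3 (P3 ⊕g completeGraph (Fin 2)) (n := 6) (by omega) (by simp)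
        (arrows_cone (by omega) (by simp) (arrows_mono hH (by omega)))
      rw [edges_sum, edges_P3, edges_K2] at h
      omega
  · push Not at h6
    have hopt := opt_mid (by omega : 3 ≤ n) (by omega : n ≤ 8)
    have hH : Arrows K3 (cone P3 ⊕g completeGraph (Fin 2)) 7 := by
      apply arrows_sum arrows_K4e arrows_K2 (by omega)
      simp
    interval_cases n
    · have h := le_gK3 (cone P3 ⊕g completeGraph (Fin 2)) (n := 7) (by omega) (by simp)
        (arrows_cone (by omega) (by simp) (arrows_mono hH (by omega)))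
      rw [edges_sum, edges_cone, edges_P3, edges_K2, Fintype.card_fin] at h
      omega
    · have hH2 : Arrows K3 ((cone P3 ⊕g completeGraph (Fin 2)) ⊕g (⊥ : SimpleGraph (Fin 1))) 7 := by
        apply arrows_sum hH arrows_bot (by omega)
        simp
      have h := le_gK3 ((cone P3 ⊕g completeGraph (Fin 2)) ⊕g (⊥ : SimpleGraph (Fin 1)))
        (n := 8) (by omega) (by simp)
        (arrows_cone (by omega) (by simp) (arrows_mono hH2 (by omega)))
      rw [edges_sum, edges_sum, edges_cone, edges_P3, edges_K2, edges_bot, Fintype.card_fin] at h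
      omega

/-! ### The cases `n = 2, 3` -/

lemma gK3_two : gK3 2 = 1 := by
  classical
  apply le_antisymm
  · apply csSup_le'
    rintro q ⟨G, -, -, rfl⟩
    rw [ncard_edgeSet]
    have := G.card_edgeFinset_le_card_choose_two
    simpa using this
  · have hH : Arrows K3 (cone (⊥ : SimpleGraph (Fin 1))) 3 := by
      refine arrows_of_contained arrows_K2 ⟨⟨⟨fun x => x.elim 0 (fun _ => 1), ?_⟩, ?_⟩⟩
      · intro x y hxy
        rcases x with _ | x <;> rcases y with _ | y
        · exact absurd hxy ((cone _).loopless.irrefl _)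
        · simp
        · simp
        · rw [cone_adj_some_some] at hxy
          exact absurd hxy (by simp)
      · intro x y hxy
        rcases x with _ | x <;> rcases y with _ | y
        · rfl
        · simp at hxy
        · simp at hxy
        · rw [Subsingleton.elim x y]
    have h := le_gK3 (⊥ : SimpleGraph (Fin 1)) (n := 2) (by omega) (by simp) hH
    rw [edges_bot] at h
    exact h

lemma gK3_three : gK3 3 = 2 := by
  classical
  apply le_antisymm
  · apply csSup_le'
    rintro q ⟨G, -, hG, rfl⟩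
    by_contra hcon
    push Not at hcon
    rw [ncard_edgeSet] at hcon
    have hle := G.card_edgeFinset_le_card_choose_two
    have hc3 : (Fintype.card (Fin 3)).choose 2 = 3 := by decide
    have htop : G = ⊤ := by
      have h1 := card_edgeFinset_top_eq_card_choose_two (V := Fin 3)
      have h2 : G.edgeFinset = (⊤ : SimpleGraph (Fin 3)).edgeFinset := by
        apply Finset.eq_of_subset_of_card_le
        · exact edgeFinset_mono le_top
        · rw [h1, hc3]; omega
      exact edgeFinset_inj.mp h2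
    apply not_arrows_K3_K3
    rw [← ramseyNumber_le_iff]
    have : ramseyNumber K3 G ≤ 5 := by rw [hG]
    rw [htop] at this
    exact this
  · have hH : Arrows K3 (cone (⊥ : SimpleGraph (Fin 2))) 5 := by
      refine arrows_of_contained arrows_P3 ⟨⟨⟨fun x => x.elim 1 (fun i => if i = 0 then 0 else 2),
        ?_⟩, ?_⟩⟩
      · intro x y hxy
        rcases x with _ | x <;> rcases y with _ | y
        · exact absurd hxy ((cone _).loopless.irrefl _)
        · fin_cases y <;> simp [P3]
        · fin_cases x <;> simp [P3]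
        · rw [cone_adj_some_some] at hxy
          exact absurd hxy (by simp)
      · intro x y hxy
        rcases x with _ | x <;> rcases y with _ | y
        · rfl
        · fin_cases y <;> simp at hxy
        · fin_cases x <;> simp at hxy
        · fin_cases x <;> fin_cases y <;> simp_all
    have h := le_gK3 (⊥ : SimpleGraph (Fin 2)) (n := 3) (by omega) (by simp) hH
    rw [edges_bot] at h
    exact h

theorem q2_main : {n : ℕ | 2 ≤ n ∧ gK3 n = e2 n} = {2, 3} := by
  ext n
  simp only [Set.mem_ofPred_eq, Set.mem_insert_iff, Set.mem_singleton_iff]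
  constructor
  · rintro ⟨h2, h⟩
    by_contra hcon
    have := e2_lt_gK3 (n := n) (by omega)
    omega
  · rintro (rfl | rfl)
    · refine ⟨le_rfl, ?_⟩
      rw [gK3_two, e2_eq, opt_zero le_rfl (by omega)]
    · refine ⟨by omega, ?_⟩
      rw [gK3_three, e2_eq, opt_zero (by omega) (by omega)]

theorem q1_main : {n : ℕ | 2 ≤ n ∧ gK3 n = e1 n} = {2, 3} := by
  ext n
  simp only [Set.mem_ofPred_eq, Set.mem_insert_iff, Set.mem_singleton_iff]
  constructor
  · rintro ⟨h2, h⟩
    by_contra hcon
    have := e2_lt_gK3 (n := n) (by omega)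
    have := e1_le_e2 h2
    omega
  · rintro (rfl | rfl)
    · refine ⟨le_rfl, ?_⟩
      have h1 := e1_le_e2 (n := 2) le_rfl
      have h2 : e2 2 = 1 := by rw [e2_eq, opt_zero le_rfl (by omega)]
      have h3 : 1 ≤ e1 2 := by rw [e1_eq]; omega
      rw [gK3_two]
      omega
    · refine ⟨by omega, ?_⟩
      have h1 := e1_le_e2 (n := 3) (by omega)
      have h2 : e2 3 = 2 := by rw [e2_eq, opt_zero (by omega) (by omega)]
      have h3 : 2 ≤ e1 3 := by rw [e1_eq]; omega
      rw [gK3_three]
      omega

end main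

end Pool.Agent.Helper72.K3Good
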