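import Mathlib

/-!
# Edge-maximal connected `K_3`-good graphs: definitions

A red/blue colouring of the edges of the complete graph on a vertex set `V` is given by the simple
graph `R` of its red edges; the graph of its blue edges is the complement `Rᶜ`.
`A ⊑ B` (`SimpleGraph.IsContained`) says that `B` has a (not necessarily induced) subgraph
isomorphic to `A`.
-/

namespace Pool.Agent.Helper72.K3Good

open SimpleGraph Finset

/-- `Arrows F G N`: every red/blue colouring of the edges of the complete graph on `N` vertices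
(`R` is the graph of red edges and `Rᶜ` the graph of blue edges) contains a red copy of `F` or a
blue copy of `G`. -/
def Arrows {V W : Type*} (F : SimpleGraph V) (G : SimpleGraph W) (N : ℕ) : Prop :=
  ∀ R : SimpleGraph (Fin N), F ⊑ R ∨ G ⊑ Rᶜ

/-- The Ramsey number `r(F, G)`: the least `N` with `Arrows F G N`. -/
noncomputable def ramseyNumber {V W : Type*} (F : SimpleGraph V) (G : SimpleGraph W) : ℕ :=
  sInf {N : ℕ | Arrows F G N}

/-- The triangle. -/
abbrev K3 : SimpleGraph (Fin 3) := completeGraph (Fin 3)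

/-- The disjoint union of the complete graphs of orders `s i`, `i : ι`. -/
def cliqueUnion {ι : Type*} (s : ι → ℕ) : SimpleGraph (Σ i, Fin (s i)) where
  Adj x y := x ≠ y ∧ x.1 = y.1
  symm := ⟨fun _ _ h => ⟨h.1.symm, h.2.symm⟩⟩
  loopless := ⟨fun _ h => h.1 rfl⟩

/-- `g(K_3, n)`: the largest number of edges of a connected `K_3`-good graph on `n` vertices, where
a connected graph `G` on `n` vertices is `K_3`-good if `r(K_3, G) = 2 n - 1`. -/
noncomputable def gK3 (n : ℕ) : ℕ :=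
  sSup {q : ℕ | ∃ G : SimpleGraph (Fin n),
    G.Connected ∧ ramseyNumber K3 G = 2 * n - 1 ∧ G.edgeSet.ncard = q}

/-- `e_1(n) = n - 1 + max {t * (s choose 2) : t, s ≥ 1, r(K_3, t K_s) ≤ n - 1}`. -/
noncomputable def e1 (n : ℕ) : ℕ :=
  n - 1 + sSup {q : ℕ | ∃ t s : ℕ, 1 ≤ t ∧ 1 ≤ s ∧
    ramseyNumber K3 (cliqueUnion (fun _ : Fin t => s)) ≤ n - 1 ∧ t * s.choose 2 = q}

/-- `e_2(n) = n - 1 + max {∑ i, (s_i choose 2) : t, s_i ≥ 1, r(K_3, K_{s_1} ∪ ... ∪ K_{s_t}) ≤ n - 1}`. -/
noncomputable def e2 (n : ℕ) : ℕ :=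
  n - 1 + sSup {q : ℕ | ∃ (t : ℕ) (s : Fin t → ℕ), 1 ≤ t ∧ (∀ i, 1 ≤ s i) ∧
    ramseyNumber K3 (cliqueUnion s) ≤ n - 1 ∧ ∑ i, (s i).choose 2 = q}

end Pool.Agent.Helper72.K3Good
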